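import Pool.Agent.Helper95.Lin.GoalsH
import Pool.Agent.Helper95.Lin.Basics

/-! # Packet MASS -/

open Complex Metric Set Filter Topology MeasureTheory
open scoped ContDiff ComplexConjugate ComplexOrder

namespace Pool.Agent.Helper82.Lin

open Pool.Agent.Helper95.Lin

theorem dd_congr {n : ℕ} {φ ψ : Cn n → ℝ} {x : Cn n} (h : φ =ᶠ[𝓝 x] ψ) (a : Fin n × Bool) :
    dd φ a =ᶠ[𝓝 x] dd ψ a := by
  have h1 := h.fderiv (𝕜 := ℝ)
  filter_upwards [h1] with y hy
  simp only [dd, hy]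

theorem Lop_congr {n : ℕ} (P : Fin n × Bool → Fin n × Bool → Cn n → ℝ) {φ ψ : Cn n → ℝ}
    {x : Cn n} (h : φ =ᶠ[𝓝 x] ψ) : Lop P φ x = Lop P ψ x := by
  simp only [Lop]
  refine Finset.sum_congr rfl fun a _ => Finset.sum_congr rfl fun b _ => ?_
  rw [(dd_congr (dd_congr h b) a).eq_of_nhds]

theorem dd_smooth {n : ℕ} {M : Set (Cn n)} (hM : IsOpen M) {φ : Cn n → ℝ}
    (h : ContDiffOn ℝ ∞ φ M) (a : Fin n × Bool) : ContDiffOn ℝ ∞ (dd φ a) M := by
  have h1 : ContDiffOn ℝ ∞ (fderiv ℝ φ) M := h.fderiv_of_isOpen hM (by simp)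
  exact h1.clm_apply contDiffOn_const

theorem dd_add {n : ℕ} {M : Set (Cn n)} (hM : IsOpen M) {φ ψ : Cn n → ℝ}
    (h : ContDiffOn ℝ ∞ φ M) (h' : ContDiffOn ℝ ∞ ψ M) (a : Fin n × Bool) {x : Cn n}
    (hx : x ∈ M) : dd (φ + ψ) a x = dd φ a x + dd ψ a x := by
  have h1 : DifferentiableAt ℝ φ x :=
    (h.differentiableOn (by simp)).differentiableAt (hM.mem_nhds hx)
  have h2 : DifferentiableAt ℝ ψ x :=
    (h'.differentiableOn (by simp)).differentiableAt (hM.mem_nhds hx)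
  simp only [dd]
  rw [fderiv_add h1 h2]
  rfl

theorem dd_cmul {n : ℕ} {M : Set (Cn n)} (hM : IsOpen M) {φ : Cn n → ℝ}
    (h : ContDiffOn ℝ ∞ φ M) (k : ℝ) (a : Fin n × Bool) {x : Cn n}
    (hx : x ∈ M) : dd (fun y => k * φ y) a x = k * dd φ a x := by
  have h1 : DifferentiableAt ℝ φ x :=
    (h.differentiableOn (by simp)).differentiableAt (hM.mem_nhds hx)
  simp only [dd]
  rw [fderiv_const_mul h1]
  rfl

theorem Lop_add {n : ℕ} {M : Set (Cn n)} (hM : IsOpen M)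
    (P : Fin n × Bool → Fin n × Bool → Cn n → ℝ) {φ ψ : Cn n → ℝ}
    (h : ContDiffOn ℝ ∞ φ M) (h' : ContDiffOn ℝ ∞ ψ M) {x : Cn n}
    (hx : x ∈ M) : Lop P (φ + ψ) x = Lop P φ x + Lop P ψ x := by
  simp only [Lop]
  rw [← Finset.sum_add_distrib]
  refine Finset.sum_congr rfl fun a _ => ?_
  rw [← Finset.sum_add_distrib]
  refine Finset.sum_congr rfl fun b _ => ?_
  have h1 : dd (φ + ψ) b =ᶠ[𝓝 x] dd φ b + dd ψ b := by
    filter_upwards [hM.mem_nhds hx] with y hy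
    exact dd_add hM h h' b hy
  rw [(dd_congr h1 a).eq_of_nhds, dd_add hM (dd_smooth hM h b) (dd_smooth hM h' b) a hx]
  ring

theorem Lop_cmul {n : ℕ} {M : Set (Cn n)} (hM : IsOpen M)
    (P : Fin n × Bool → Fin n × Bool → Cn n → ℝ) {φ : Cn n → ℝ}
    (h : ContDiffOn ℝ ∞ φ M) (k : ℝ) {x : Cn n}
    (hx : x ∈ M) : Lop P (fun y => k * φ y) x = k * Lop P φ x := by
  simp only [Lop]
  rw [Finset.mul_sum]
  refine Finset.sum_congr rfl fun a _ => ?_
  rw [Finset.mul_sum]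
  refine Finset.sum_congr rfl fun b _ => ?_
  have h1 : dd (fun y => k * φ y) b =ᶠ[𝓝 x] fun y => k * dd φ b y := by
    filter_upwards [hM.mem_nhds hx] with y hy
    exact dd_cmul hM h k b hy
  rw [(dd_congr h1 a).eq_of_nhds, dd_cmul hM (dd_smooth hM h b) k a hx]
  ring

theorem Lop_cont {n : ℕ} {M : Set (Cn n)} (hM : IsOpen M)
    {P : Fin n × Bool → Fin n × Bool → Cn n → ℝ} (hP : ∀ a b, ContDiffOn ℝ ∞ (P a b) M)
    {φ : Cn n → ℝ} (h : ContDiffOn ℝ ∞ φ M) : ContinuousOn (Lop P φ) M := by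
  unfold Lop
  refine continuousOn_finsetSum _ fun a _ => continuousOn_finsetSum _ fun b _ => ?_
  exact (hP a b).continuousOn.mul (dd_smooth hM (dd_smooth hM h b) a).continuousOn

theorem mass (hU : S_UNF) (hE : S_LEXP) : S_MASS := by
  intro n M Γ _ T P χ hA hχ ρ c hρ hρT F hF hF0 hFT s hs
  have hM := hA.act.isOpen
  have hexp : ContDiffOn ℝ ∞ (fun y => Real.exp (-s * ρ y)) M :=
    (contDiffOn_const.mul hρ).exp
  have key := hU hA.act hχ
    (fun φ x => F x ^ s * Lop P (fun y => φ y * Real.exp (-s * ρ y)) x) ?_ ?_ ?_ ?_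
  · rw [key]
    refine setIntegral_congr_fun hM.measurableSet fun x hx => ?_
    simp only [one_mul]
    rw [hE M P hM ρ hρ (-s) x hx, Real.mul_rpow (hF0 x hx) (Real.exp_pos _).le,
      ← Real.exp_mul]
    have e : -ρ x * s = -s * ρ x := by ring
    rw [e]
    ring
  · intro φ hφ
    exact (hF.rpow_const fun x _ => Or.inr hs.le).mul (Lop_cont hM hA.smooth (hφ.mul hexp))
  · intro φ ψ _ _ x hx he
    have h1 : (fun y => φ y * Real.exp (-s * ρ y)) =ᶠ[𝓝 x]
        fun y => ψ y * Real.exp (-s * ρ y) := by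
      filter_upwards [he] with y hy
      rw [hy]
    rw [Lop_congr P h1]
  · intro φ ψ hφ hψ x hx
    have h1 : (fun y => (φ + ψ) y * Real.exp (-s * ρ y)) =
        (fun y => φ y * Real.exp (-s * ρ y)) + fun y => ψ y * Real.exp (-s * ρ y) := by
      funext y
      simp only [Pi.add_apply]
      ring
    rw [h1, Lop_add hM P (hφ.mul hexp) (hψ.mul hexp) hx]
    ring
  · intro γ φ hφ x hx
    have hsm : ContDiffOn ℝ ∞ (fun y => φ y * Real.exp (-s * ρ y)) M := hφ.mul hexp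
    have hT : ContDiffOn ℝ ∞ (T γ) M := hA.act.contDiffOn γ
    have h1 : (fun y => (φ ∘ T γ) y * Real.exp (-s * ρ y)) =ᶠ[𝓝 x]
        fun y => Real.exp (s * c γ) * ((fun y => φ y * Real.exp (-s * ρ y)) ∘ T γ) y := by
      filter_upwards [hM.mem_nhds hx] with y hy
      simp only [Function.comp_apply]
      rw [hρT γ y hy]
      have e : Real.exp (-s * ρ y) = Real.exp (s * c γ) * Real.exp (-s * (ρ y + c γ)) := by
        rw [← Real.exp_add]
        congr 1
        ring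
      rw [e]
      ring
    rw [Lop_congr P h1, Lop_cmul hM P (hsm.comp hT (fun y hy => hA.act.maps γ y hy)) _ hx,
      hA.nat γ _ hsm x hx, hFT γ x hx, Real.mul_rpow (Real.exp_pos _).le (hF0 x hx),
      ← Real.exp_mul]
    have e : s * c γ = c γ * s := by ring
    rw [e]
    ring

end Pool.Agent.Helper82.Lin
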